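import Pool.Agent.helper55.GL.Spec

set_option autoImplicit false

namespace Pool.Agent.GL

open SimpleGraph

theorem CUT_count (n : ℕ) (u v : Fin n) (huv : u ≠ v) :
    4 * ((Finset.univ : Finset (Finset (Fin n))).filter (fun S => u ∈ S ∧ v ∉ S)).card = 2 ^ n := by
  classical
  have h1 : ((Finset.univ : Finset (Finset (Fin n))).filter (fun S => u ∈ S ∧ v ∉ S)) =
      Finset.Icc {u} (Finset.univ.erase v) := by
    ext S
    simp only [Finset.mem_filter, Finset.mem_univ, true_and, Finset.mem_Icc,
      Finset.singleton_subset_iff]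
    constructor
    · rintro ⟨h, h'⟩
      exact ⟨h, fun x hx => Finset.mem_erase.mpr ⟨fun e => h' (e ▸ hx), Finset.mem_univ _⟩⟩
    · rintro ⟨h, h'⟩
      exact ⟨h, fun hv => (Finset.mem_erase.mp (h' hv)).1 rfl⟩
  have hsub : ({u} : Finset (Fin n)) ⊆ Finset.univ.erase v := by
    rw [Finset.singleton_subset_iff]
    exact Finset.mem_erase.mpr ⟨huv, Finset.mem_univ _⟩
  rw [h1, Finset.card_Icc_finset hsub, Finset.card_erase_of_mem (Finset.mem_univ _),
    Finset.card_univ, Fintype.card_fin, Finset.card_singleton]
  have hn : 2 ≤ n := by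
    by_contra hcon
    apply huv
    apply Fin.ext
    have := u.isLt
    have := v.isLt
    omega
  obtain ⟨m, rfl⟩ : ∃ m, n = m + 2 := ⟨n - 2, by omega⟩
  have : m + 2 - 1 - 1 = m := by omega
  rw [this, pow_add]
  ring

theorem CUT (hBAS : BAS_stmt) : CUT_stmt := by
  classical
  intro V _ H c hc hiso n
  have key : ∀ ⦃G : SimpleGraph (Fin n)⦄ [DecidableRel G.Adj], H.Free G →
      G.edgeFinset.card ≤ 2 * exs n H c Set.univ := by
    intro G _ hG
    have hB : ∀ S : Finset (Fin n), ((Finset.univ : Finset (Fin n × Fin n)).filter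
        (fun x => (x.1 ∈ S ∧ x.2 ∉ S) ∧ G.Adj x.1 x.2)).card ≤ exs n H c Set.univ := by
      intro S
      apply ((hBAS V H c).1 n Set.univ _).mp le_rfl
      rintro ⟨φ, hφ, hφ2⟩
      have hS : ∀ a, (c a = true → φ a ∈ S) ∧ (c a = false → φ a ∉ S) := by
        intro a
        obtain ⟨b, hab⟩ := hiso a
        have hne := hc a b hab
        constructor
        · intro ha
          have hb : c b = false := by
            rcases h : c b with _ | _
            · rfl
            · rw [ha, h] at hne
              exact absurd rfl hne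
          have h3 := hφ2 a (Set.mem_univ _) b (Set.mem_univ _) hab ha hb
          rw [Finset.mem_filter] at h3
          exact h3.2.1.1
        · intro ha
          have hb : c b = true := by
            rcases h : c b with _ | _
            · rw [ha, h] at hne
              exact absurd rfl hne
            · rfl
          have h3 := hφ2 b (Set.mem_univ _) a (Set.mem_univ _) hab.symm hb ha
          rw [Finset.mem_filter] at h3
          exact h3.2.1.2
      apply hG
      refine ⟨⟨⟨φ, ?_⟩, ?_⟩⟩
      · intro a b hab
        have hne := hc a b hab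
        rcases ha : c a with _ | _ <;> rcases hb : c b with _ | _
        · rw [ha, hb] at hne
          exact absurd rfl hne
        · have h3 := hφ2 b (Set.mem_univ _) a (Set.mem_univ _) hab.symm hb ha
          rw [Finset.mem_filter] at h3
          exact h3.2.2.symm
        · have h3 := hφ2 a (Set.mem_univ _) b (Set.mem_univ _) hab ha hb
          rw [Finset.mem_filter] at h3
          exact h3.2.2
        · rw [ha, hb] at hne
          exact absurd rfl hne
      · intro a b hab
        change φ a = φ b at hab
        by_cases hcab : c a = c b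
        · exact hφ a (Set.mem_univ _) b (Set.mem_univ _) hcab hab
        · exfalso
          rcases ha : c a with _ | _ <;> rcases hb : c b with _ | _
          · rw [ha, hb] at hcab
            exact hcab rfl
          · exact (hS a).2 ha (hab ▸ (hS b).1 hb)
          · exact (hS b).2 hb (hab ▸ (hS a).1 ha)
          · rw [ha, hb] at hcab
            exact hcab rfl
    -- sum over all S
    have hsum : ∑ S : Finset (Fin n), ((Finset.univ : Finset (Fin n × Fin n)).filter
        (fun x => (x.1 ∈ S ∧ x.2 ∉ S) ∧ G.Adj x.1 x.2)).card ≤ 2 ^ n * exs n H c Set.univ := by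
      calc ∑ S : Finset (Fin n), ((Finset.univ : Finset (Fin n × Fin n)).filter
            (fun x => (x.1 ∈ S ∧ x.2 ∉ S) ∧ G.Adj x.1 x.2)).card
          ≤ ∑ _S : Finset (Fin n), exs n H c Set.univ := Finset.sum_le_sum fun S _ => hB S
        _ = 2 ^ n * exs n H c Set.univ := by
            rw [Finset.sum_const, Finset.card_univ, Fintype.card_finset, Fintype.card_fin,
              smul_eq_mul]
    have hswap : ∑ S : Finset (Fin n), ((Finset.univ : Finset (Fin n × Fin n)).filter
        (fun x => (x.1 ∈ S ∧ x.2 ∉ S) ∧ G.Adj x.1 x.2)).card =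
        ∑ x ∈ (Finset.univ : Finset (Fin n × Fin n)).filter (fun x => G.Adj x.1 x.2),
          ((Finset.univ : Finset (Finset (Fin n))).filter (fun S => x.1 ∈ S ∧ x.2 ∉ S)).card := by
      simp only [Finset.card_filter]
      rw [Finset.sum_comm, Finset.sum_filter]
      apply Finset.sum_congr rfl
      intro x _
      by_cases hx : G.Adj x.1 x.2
      · simp [hx]
      · simp [hx]
    have h4 : 4 * ∑ x ∈ (Finset.univ : Finset (Fin n × Fin n)).filter (fun x => G.Adj x.1 x.2),
          ((Finset.univ : Finset (Finset (Fin n))).filter (fun S => x.1 ∈ S ∧ x.2 ∉ S)).card =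
        2 * G.edgeFinset.card * 2 ^ n := by
      rw [Finset.mul_sum, Finset.sum_congr rfl (g := fun _ => 2 ^ n), Finset.sum_const, smul_eq_mul]
      · congr 1
        rw [two_mul_card_edgeFinset]
      · intro x hx
        rw [Finset.mem_filter] at hx
        exact CUT_count n x.1 x.2 hx.2.ne
    have h5 : 2 * G.edgeFinset.card * 2 ^ n ≤ 4 * (2 ^ n * exs n H c Set.univ) := by
      rw [← h4, ← hswap]
      exact Nat.mul_le_mul_left _ hsum
    have h6 : 0 < 2 ^ n := by positivity
    nlinarith [h5, h6]
  have h7 := (extremalNumber_le_iff (V := Fin n) H (2 * exs n H c Set.univ)).mpr key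
  rw [Fintype.card_fin] at h7
  exact h7

end Pool.Agent.GL
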